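import Mathlib
import Pool.Agent.V1154.ConeGen

/-!
# Integrality of polytope measures in the simplex lattice
-/

set_option autoImplicit false

namespace Pool.Agent.Results.MP_8bc176_co.IntegralBasis

open Finset MeasureTheory Module
open Pool.Agent.V1154.ConeGen

/-- The ambient space. -/
abbrev E (d : ℕ) : Type := Fin d → ℝ

/-- The standard measure of a set: Lebesgue measure restricted to it, as a signed measure. -/
noncomputable def mu {d : ℕ} (Ω : Set (E d)) : SignedMeasure (E d) :=
  (volume : Measure (E d)).withDensityᵥ (Ω.indicator fun _ => (1 : ℝ))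

/-- `B` is the vertex set of a `d`-simplex with all vertices in `S`. -/
def IsSimplexIn {d : ℕ} (S B : Finset (E d)) : Prop :=
  B ⊆ S ∧ B.card = d + 1 ∧ AffineIndependent ℝ (fun b : B => (b : E d))

/-- The standard measure of the simplex with vertex set `B`. -/
noncomputable def muS {d : ℕ} (B : Finset (E d)) : SignedMeasure (E d) :=
  mu (convexHull ℝ (B : Set (E d)))

/-- The real space spanned by the simplex measures. -/
noncomputable def MDelta {d : ℕ} (S : Finset (E d)) : Submodule ℝ (SignedMeasure (E d)) :=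
  Submodule.span ℝ (muS '' {B | IsSimplexIn S B})

/-- A generalized polytope: a finite union of convex polytopes of full dimension. -/
def IsGeneralizedPolytope {d : ℕ} (P : Set (E d)) : Prop :=
  ∃ F : Finset (Finset (E d)), (∀ A ∈ F, (interior (convexHull ℝ (A : Set (E d)))).Nonempty) ∧
    P = ⋃ A ∈ F, convexHull ℝ (A : Set (E d))

/-- `G` is a basis of `MDelta S` consisting of simplex measures. -/
def IsSimplexBasis {d : ℕ} (S : Finset (E d)) (G : Finset (Finset (E d))) : Prop :=
  (∀ B ∈ G, IsSimplexIn S B) ∧ LinearIndependent ℝ (fun B : G => muS (B : Finset (E d))) ∧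
    Submodule.span ℝ (muS '' (G : Set (Finset (E d)))) = MDelta S

/-- The lattice spanned by the measures of the simplices in `G`. -/
noncomputable def Lambda {d : ℕ} (G : Finset (Finset (E d))) :
    Submodule ℤ (SignedMeasure (E d)) :=
  Submodule.span ℤ (muS '' (G : Set (Finset (E d))))

/-- The lattice spanned by the measures of all simplices with vertices in `S`. -/
noncomputable def LambdaAll {d : ℕ} (S : Finset (E d)) : Submodule ℤ (SignedMeasure (E d)) :=
  Submodule.span ℤ (muS '' {B | IsSimplexIn S B})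

/-! ### Integrability -/

variable {d : ℕ}

theorem integrable_hull (B : Finset (E d)) :
    Integrable ((convexHull ℝ (B : Set (E d))).indicator fun _ => (1 : ℝ)) volume := by
  have hc : IsCompact (convexHull ℝ (B : Set (E d))) := B.finite_toSet.isCompact_convexHull (𝕜 := ℝ)
  rw [integrable_indicator_iff hc.measurableSet]
  exact integrableOn_const hc.measure_lt_top.ne

theorem integrable_poly {P : Set (E d)} (hP : IsGeneralizedPolytope P) :
    Integrable (P.indicator fun _ => (1 : ℝ)) volume := by
  obtain ⟨F, -, rfl⟩ := hP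
  have hc : IsCompact (⋃ A ∈ F, convexHull ℝ (A : Set (E d))) :=
    F.finite_toSet.isCompact_biUnion fun A _ => A.finite_toSet.isCompact_convexHull (𝕜 := ℝ)
  rw [integrable_indicator_iff hc.measurableSet]
  exact integrableOn_const hc.measure_lt_top.ne

/-- the indicator function of a simplex -/
noncomputable def chi (B : Finset (E d)) : E d → ℝ :=
  (convexHull ℝ (B : Set (E d))).indicator fun _ => (1 : ℝ)

theorem muS_eq (B : Finset (E d)) : muS B = (volume : Measure (E d)).withDensityᵥ (chi B) := rfl

theorem integrable_chi (B : Finset (E d)) : Integrable (chi B) (volume : Measure (E d)) :=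
  integrable_hull B

theorem sum_density (G : Finset (Finset (E d))) (c : Finset (E d) → ℝ) :
    Integrable (fun x => ∑ B ∈ G, c B * chi B x) (volume : Measure (E d)) ∧
    (volume : Measure (E d)).withDensityᵥ (fun x => ∑ B ∈ G, c B * chi B x) =
      ∑ B ∈ G, c B • muS B := by
  classical
  induction G using Finset.induction_on with
  | empty =>
    constructor
    · simp
    · have h0 : (fun x : E d => ∑ B ∈ (∅ : Finset (Finset (E d))), c B * chi B x) = 0 := by
        funext x; simp
      rw [h0, withDensityᵥ_zero, Finset.sum_empty]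
  | insert A G hA ih =>
    have hi : Integrable (fun x => c A * chi A x) (volume : Measure (E d)) :=
      (integrable_chi A).const_mul (c A)
    have h1 : (fun x => ∑ B ∈ insert A G, c B * chi B x) =
        fun x => c A * chi A x + ∑ B ∈ G, c B * chi B x := by
      funext x
      rw [Finset.sum_insert hA]
    rw [h1]
    constructor
    · exact hi.add ih.1
    · rw [withDensityᵥ_add' hi ih.1, ih.2, Finset.sum_insert hA]
      congr 1
      exact withDensityᵥ_smul' (chi A) (c A)

/-! ### The lift to cones -/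

/-- the space containing the cones -/
abbrev W (d : ℕ) : Type := (Fin d → ℝ) × ℝ

/-- the lift -/
def lf : E d ↪ W d := ⟨fun x => (x, 1), fun _ _ h => (Prod.mk.inj h).1⟩

theorem lf_apply (x : E d) : lf x = (x, 1) := rfl

theorem finrank_W : finrank ℝ (W d) = d + 1 := by
  simp [W]

theorem finrank_top : finrank ℝ (⊤ : Submodule ℝ (W d)) = d + 1 := by
  rw [_root_.finrank_top, finrank_W]

theorem sum_lf (B : Finset (E d)) (f : W d → ℝ) :
    ∑ w ∈ B.map lf, f w • w = (∑ b ∈ B, f (b, 1) • b, ∑ b ∈ B, f (b, 1)) := by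
  rw [Finset.sum_map]
  apply Prod.ext
  · rw [Prod.fst_sum]
    rfl
  · rw [Prod.snd_sum]
    apply Finset.sum_congr rfl
    intro b _
    simp [lf_apply]

theorem simplex_bas {S B : Finset (E d)} (h : IsSimplexIn S B) : B.map lf ∈ Bas (S.map lf) ⊤ := by
  classical
  obtain ⟨h1, h2, h3⟩ := h
  have hli : LinearIndepOn ℝ id ((B.map lf : Finset (W d)) : Set (W d)) := by
    apply li_of_coord
    intro f hf w hw
    rw [sum_lf] at hf
    have e1 := congrArg Prod.fst hf
    have e2 := congrArg Prod.snd hf
    simp only [Prod.fst_zero, Prod.snd_zero] at e1 e2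
    obtain ⟨b, hb, rfl⟩ := Finset.mem_map.1 hw
    have h4 := affineIndependent_iff.1 h3 Finset.univ (fun b : B => f ((b : E d), 1)) (by
      rw [Finset.univ_eq_attach, Finset.sum_attach B (fun b => f (b, 1))]; exact e2) (by
      rw [Finset.univ_eq_attach, Finset.sum_attach B (fun b => f (b, 1) • b)]; exact e1)
      ⟨b, hb⟩ (Finset.mem_univ _)
    exact h4
  rw [mem_Bas]
  refine ⟨Finset.map_subset_map.2 h1, hli, ?_⟩
  apply Submodule.eq_top_of_finrank_eq
  have := finrank_span_finset_eq_card hli
  rw [this, Finset.card_map, h2, finrank_W]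

theorem bas_simplex {S : Finset (E d)} {C : Finset (W d)} (hC : C ∈ Bas (S.map lf) ⊤) :
    ∃ B, IsSimplexIn S B ∧ B.map lf = C := by
  classical
  have hcard := card_of_bas hC
  obtain ⟨h1, h2, h3⟩ := mem_Bas.1 hC
  obtain ⟨B, hB1, hB2⟩ := Finset.subset_map_iff.1 h1
  refine ⟨B, ⟨hB1, ?_, ?_⟩, hB2.symm⟩
  · rw [finrank_top, hB2, Finset.card_map] at hcard
    exact hcard.symm
  · rw [affineIndependent_iff]
    intro s w hw1 hw2 e he
    set F : E d → ℝ := fun b => if h : b ∈ B then (if (⟨b, h⟩ : B) ∈ s then w ⟨b, h⟩ else 0) else 0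
      with hF
    have hFb : ∀ b : B, F b = if b ∈ s then w b else 0 := by
      intro b
      rw [hF]
      simp only [b.2, dif_pos]
    have e1 : ∑ b ∈ B, F b • b = 0 := by
      rw [← Finset.sum_attach B (fun b => F b • b)]
      simp only [hFb]
      refine Eq.trans ?_ hw2
      rw [← Finset.univ_eq_attach, ← Finset.sum_subset (Finset.subset_univ s)]
      · apply Finset.sum_congr rfl
        intro b hb
        rw [if_pos hb]
      · intro b _ hb
        rw [if_neg hb, zero_smul]
    have e2 : ∑ b ∈ B, F b = 0 := by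
      rw [← Finset.sum_attach B (fun b => F b)]
      simp only [hFb]
      refine Eq.trans ?_ hw1
      rw [← Finset.univ_eq_attach, ← Finset.sum_subset (Finset.subset_univ s)]
      · apply Finset.sum_congr rfl
        intro b hb
        rw [if_pos hb]
      · intro b _ hb
        rw [if_neg hb]
    have e3 : ∑ x ∈ B.map lf, F x.1 • x = ∑ x ∈ B.map lf, (0 : ℝ) • x := by
      rw [sum_lf B (fun x => F x.1), e1, e2]
      simp
    rw [hB2] at h2
    have h4 := unique_coord h2 (f := fun x => F x.1) (g := fun _ => 0) e3 (lf (e : E d))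
      (Finset.mem_map_of_mem lf e.2)
    have h5 : F (e : E d) = 0 := h4
    rw [hFb, if_pos he] at h5
    exact h5

theorem inCone_lf (B : Finset (E d)) (x : E d) :
    InCone (B.map lf) (x, 1) ↔ x ∈ convexHull ℝ (B : Set (E d)) := by
  classical
  rw [Finset.mem_convexHull']
  constructor
  · rintro ⟨f, hf, hs⟩
    rw [sum_lf] at hs
    have e1 := congrArg Prod.fst hs
    have e2 := congrArg Prod.snd hs
    simp only at e1 e2
    exact ⟨fun b => f (b, 1), fun b hb => hf _ (Finset.mem_map_of_mem lf hb), e2, e1⟩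
  · rintro ⟨w, hw, h1, h2⟩
    refine ⟨fun x => w x.1, ?_, ?_⟩
    · intro x hx
      obtain ⟨b, hb, rfl⟩ := Finset.mem_map.1 hx
      exact hw b hb
    · rw [sum_lf B (fun x => w x.1)]
      simp only
      rw [h1, h2]

theorem ind_lf (B : Finset (E d)) (x : E d) : ind (B.map lf) (x, 1) = chi B x := by
  classical
  unfold ind chi
  by_cases h : x ∈ convexHull ℝ (B : Set (E d))
  · rw [if_pos ((inCone_lf B x).2 h), Set.indicator_of_mem h]
  · rw [if_neg (fun h' => h ((inCone_lf B x).1 h')), Set.indicator_of_notMem h]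

theorem inCone_smul {C : Finset (W d)} {w : W d} {t : ℝ} (ht : 0 < t) :
    InCone C (t • w) ↔ InCone C w := by
  have key : ∀ {t : ℝ} {w : W d}, 0 < t → InCone C w → InCone C (t • w) := by
    rintro t w ht ⟨f, hf, rfl⟩
    refine ⟨fun b => t * f b, fun b hb => mul_nonneg ht.le (hf b hb), ?_⟩
    rw [Finset.smul_sum]
    apply Finset.sum_congr rfl
    intro b _
    rw [mul_smul]
  constructor
  · intro h
    have := key (inv_pos.2 ht) h
    rwa [smul_smul, inv_mul_cancel₀ ht.ne', one_smul] at this
  · exact key ht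

theorem ind_smul {C : Finset (W d)} {w : W d} {t : ℝ} (ht : 0 < t) :
    ind C (t • w) = ind C w := by
  classical
  unfold ind
  exact if_congr (inCone_smul ht) rfl rfl

theorem ind_neg {S : Finset (E d)} {C : Finset (W d)} (hC : C ∈ Bas (S.map lf) ⊤) {w : W d}
    (hw : w.2 < 0) : ind C w = 0 := by
  obtain ⟨B, hB, rfl⟩ := bas_simplex hC
  unfold ind
  rw [if_neg]
  rintro ⟨f, hf, hs⟩
  rw [sum_lf] at hs
  have e2 : ∑ b ∈ B, f (b, 1) = w.2 := congrArg Prod.snd hs
  have : 0 ≤ ∑ b ∈ B, f (b, 1) :=
    Finset.sum_nonneg fun b hb => hf _ (Finset.mem_map_of_mem lf hb)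
  linarith

/-! ### Coordinates and local constancy -/

theorem exists_coord {C : Finset (W d)} (h2 : LinearIndepOn ℝ id (C : Set (W d)))
    (h3 : Submodule.span ℝ (C : Set (W d)) = ⊤) :
    ∃ φ : W d → W d →ₗ[ℝ] ℝ, ∀ w, ∑ b ∈ C, φ b w • b = w := by
  classical
  have hsp : ⊤ ≤ Submodule.span ℝ (Set.range (fun b : (C : Set (W d)) => id (b : W d))) := by
    rw [← h3]
    apply Submodule.span_mono
    intro x hx
    exact ⟨⟨x, hx⟩, rfl⟩
  let bs := Basis.mk h2 hsp
  refine ⟨fun b => if h : b ∈ C then bs.coord ⟨b, h⟩ else 0, fun w => ?_⟩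
  have h4 := bs.sum_repr w
  rw [← Finset.sum_attach C (fun b => _ • b)]
  conv_rhs => rw [← h4]
  rw [← Finset.univ_eq_attach]
  apply Finset.sum_congr rfl
  intro b _
  have h5 : bs b = (b : W d) := by
    show Basis.mk h2 hsp b = _
    rw [Basis.mk_apply]
    rfl
  rw [h5]
  simp only [b.2, dif_pos]
  rfl

open Filter Topology in
theorem locally_const {C : Finset (W d)} (h2 : LinearIndepOn ℝ id (C : Set (W d)))
    (h3 : Submodule.span ℝ (C : Set (W d)) = ⊤) {w : W d}
    (hw : ∀ b ∈ C, w ∉ Submodule.span ℝ ((C.erase b : Finset (W d)) : Set (W d))) :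
    ∀ᶠ w' in 𝓝 w, ind C w' = ind C w := by
  classical
  obtain ⟨φ, hφ⟩ := exists_coord h2 h3
  have hcone : ∀ w', InCone C w' ↔ ∀ b ∈ C, 0 ≤ φ b w' := by
    intro w'
    constructor
    · rintro ⟨f, hf, hs⟩ b hb
      rw [← unique_coord h2 (hs.trans (hφ w').symm) b hb]
      exact hf b hb
    · intro h
      exact ⟨fun b => φ b w', h, hφ w'⟩
  have hne : ∀ b ∈ C, φ b w ≠ 0 := by
    intro b hb h0
    apply hw b hb
    rw [mem_span_iff]
    refine ⟨fun b => φ b w, ?_⟩
    conv_rhs => rw [← hφ w]
    rw [← Finset.add_sum_erase C _ hb, h0, zero_smul, zero_add]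
  have hev : ∀ᶠ w' in 𝓝 w, ∀ b ∈ C, (0 ≤ φ b w' ↔ 0 ≤ φ b w) := by
    rw [eventually_all_finset]
    intro b hb
    have hcont : Continuous (φ b) := LinearMap.continuous_of_finiteDimensional _
    rcases lt_or_gt_of_ne (hne b hb) with h | h
    · filter_upwards [hcont.continuousAt.eventually_lt continuousAt_const h] with w' hw'
      constructor
      · intro h'; linarith
      · intro h'; linarith
    · filter_upwards [continuousAt_const.eventually_lt hcont.continuousAt h] with w' hw'
      constructor
      · intro _; exact h.le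
      · intro _; exact hw'.le
  filter_upwards [hev] with w' hw'
  unfold ind
  have : InCone C w' ↔ InCone C w := by
    rw [hcone, hcone]
    exact ⟨fun h b hb => (hw' b hb).1 (h b hb), fun h b hb => (hw' b hb).2 (h b hb)⟩
  simp only [this]

/-! ### Generic and almost everywhere -/

theorem ae_of_gen {p : W d → Prop} (h : Gen ⊤ p) : ∀ᵐ x : E d, p (x, 1) := by
  obtain ⟨K, h1, h2⟩ := h
  have hL : ∀ L ∈ K, ∀ᵐ x : E d, ((x, 1) : W d) ∉ L := by
    intro L hL
    let f : E d →ᵃ[ℝ] W d := (AffineMap.id ℝ (E d)).prod (AffineMap.const ℝ (E d) (1 : ℝ))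
    have hf : ∀ x, f x = (x, 1) := fun x => rfl
    set A : AffineSubspace ℝ (E d) := (L.toAffineSubspace).comap f with hA
    have hmem : ∀ x, x ∈ A ↔ ((x, 1) : W d) ∈ L := fun x => by
      rw [hA, AffineSubspace.mem_comap, hf]
      exact Submodule.mem_toAffineSubspace
    have hne : A ≠ ⊤ := by
      intro htop
      apply h1 L hL
      have hall : ∀ x : E d, ((x, 1) : W d) ∈ L := by
        intro x
        rw [← hmem, htop]
        exact AffineSubspace.mem_top ℝ (E d) x
      rintro ⟨x, t⟩ _
      have e : ((x, t) : W d) = ((x, 1) - (0, 1)) + t • ((0, 1) : W d) := by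
        ext <;> simp
      rw [e]
      exact L.add_mem (L.sub_mem (hall x) (hall 0)) (L.smul_mem t (hall 0))
    have h0 := Measure.addHaar_affineSubspace (volume : Measure (E d)) A hne
    rw [ae_iff]
    convert h0 using 2
    ext x
    simp only [not_not, Set.mem_ofPred_eq]
    exact (hmem x).symm
  have := (ae_ball_iff K.countable_toSet (p := fun x L _ => ((x, 1) : W d) ∉ L)).2 hL
  filter_upwards [this] with x hx
  exact h2 (x, 1) trivial hx

open Filter Topology in
theorem gen_of_ae {S : Finset (E d)} {G : Finset (Finset (W d))}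
    (hG : G ⊆ Bas (S.map lf) ⊤) (c : Finset (W d) → ℝ)
    (h : ∀ᵐ x : E d, ∃ z : ℤ, ∑ C ∈ G, c C * ind C (x, 1) = z) :
    Gen ⊤ (fun w => ∃ z : ℤ, ∑ C ∈ G, c C * ind C w = z) := by
  classical
  refine ⟨{LinearMap.ker (LinearMap.snd ℝ (E d) ℝ)} ∪ G.biUnion (fun C => C.image (fun b =>
    Submodule.span ℝ ((C.erase b : Finset (W d)) : Set (W d)))), ?_, ?_⟩
  · intro L hL
    rcases Finset.mem_union.1 hL with hL | hL
    · rw [Finset.mem_singleton] at hL
      subst hL
      intro hle
      have : ((0, 1) : W d) ∈ LinearMap.ker (LinearMap.snd ℝ (E d) ℝ) := hle trivial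
      rw [LinearMap.mem_ker] at this
      simp at this
    · rw [Finset.mem_biUnion] at hL
      obtain ⟨C, hC, hL⟩ := hL
      obtain ⟨b, hb, rfl⟩ := Finset.mem_image.1 hL
      apply not_le_span
      rw [card_of_bas (hG hC)]
      exact Finset.card_erase_lt_of_mem hb
  · rintro ⟨x, t⟩ - hw
    have ht : t ≠ 0 := by
      intro h0
      apply hw _ (Finset.mem_union_left _ (Finset.mem_singleton_self _))
      rw [LinearMap.mem_ker]
      exact h0
    rcases lt_or_gt_of_ne ht with hneg | hpos
    · refine ⟨0, ?_⟩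
      rw [Int.cast_zero]
      apply Finset.sum_eq_zero
      intro C hC
      rw [ind_neg (hG hC) hneg, mul_zero]
    · set x0 : E d := t⁻¹ • x with hx0
      have hscale : ((x, t) : W d) = t • ((x0, 1) : W d) := by
        rw [hx0]
        ext i
        · simp [ht]
        · simp
      have hout : ∀ C ∈ G, ∀ b ∈ C, ((x0, 1) : W d) ∉
          Submodule.span ℝ ((C.erase b : Finset (W d)) : Set (W d)) := by
        intro C hC b hb hmem
        apply hw _ (Finset.mem_union_right _ (Finset.mem_biUnion.2 ⟨C, hC,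
          Finset.mem_image.2 ⟨b, hb, rfl⟩⟩))
        rw [hscale]
        exact Submodule.smul_mem _ _ hmem
      have hcont : Continuous (fun x : E d => ((x, 1) : W d)) := by fun_prop
      have hev : ∀ᶠ x' in 𝓝 x0, ∀ C ∈ G, ind C (x', 1) = ind C (x0, 1) := by
        rw [eventually_all_finset]
        intro C hC
        obtain ⟨-, h2, h3⟩ := mem_Bas.1 (hG hC)
        exact hcont.continuousAt.eventually (locally_const h2 h3 (hout C hC))
      have hdense := Measure.dense_of_ae h
      obtain ⟨x', hx'1, hx'2⟩ := hdense.inter_nhds_nonempty hev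
      obtain ⟨z, hz⟩ := hx'1
      refine ⟨z, ?_⟩
      rw [← hz]
      apply Finset.sum_congr rfl
      intro C hC
      rw [hscale, ind_smul hpos, hx'2 C hC]

/-! ### The theorem -/

/-- a real combination of integer-valued type with respect to the good basis is integral, and the
good basis generates all simplex measures over the integers -/
theorem exists_basis (S : Finset (E d)) :
    ∃ G : Finset (Finset (E d)), (∀ B ∈ G, IsSimplexIn S B) ∧
      (∀ B, IsSimplexIn S B → ∃ n : Finset (E d) → ℤ, muS B = ∑ A ∈ G, (n A : ℝ) • muS A) ∧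
      (∀ c : Finset (E d) → ℝ, (∀ᵐ x : E d, ∃ z : ℤ, ∑ A ∈ G, c A * chi A x = z) →
        ∀ A ∈ G, ∃ z : ℤ, c A = z) := by
  classical
  obtain ⟨GW, hG1, hG2, hG3⟩ := good (S.map lf) (LinearMap.snd ℝ (E d) ℝ) (by
    intro s hs
    obtain ⟨b, -, rfl⟩ := Finset.mem_map.1 hs
    show (0 : ℝ) < (lf b).2
    rw [lf_apply]
    norm_num) (d + 1) ⊤ finrank_top
  set G : Finset (Finset (E d)) := S.powerset.filter (fun B => B.map lf ∈ GW) with hG
  have hmemG : ∀ B, B ∈ G ↔ B ⊆ S ∧ B.map lf ∈ GW := by
    intro B
    rw [hG, Finset.mem_filter, Finset.mem_powerset]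
  have hinj : Function.Injective (fun B : Finset (E d) => B.map lf) := Finset.map_injective lf
  have hGW : GW = G.image (fun B => B.map lf) := by
    ext C
    rw [Finset.mem_image]
    constructor
    · intro hC
      obtain ⟨B, hB, rfl⟩ := bas_simplex (hG1 hC)
      exact ⟨B, (hmemG B).2 ⟨hB.1, hC⟩, rfl⟩
    · rintro ⟨B, hB, rfl⟩
      exact ((hmemG B).1 hB).2
  have hsumW : ∀ (c : Finset (W d) → ℝ) (w : W d), ∑ C ∈ GW, c C * ind C w =
      ∑ B ∈ G, c (B.map lf) * ind (B.map lf) w := by
    intro c w
    rw [hGW, Finset.sum_image (fun a _ b _ h => hinj h)]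
  refine ⟨G, ?_, ?_, ?_⟩
  · intro B hB
    obtain ⟨B', hB', h⟩ := bas_simplex (hG1 ((hmemG B).1 hB).2)
    rw [← hinj h]
    exact hB'
  · intro B hB
    obtain ⟨n, hn⟩ := hG2 _ (simplex_bas hB)
    refine ⟨fun A => n (A.map lf), ?_⟩
    have h1 := ae_of_gen hn
    have h2 : chi B =ᵐ[volume] fun x => ∑ A ∈ G, (n (A.map lf) : ℝ) * chi A x := by
      filter_upwards [h1] with x hx
      rw [hsumW, ind_lf] at hx
      rw [hx]
      apply Finset.sum_congr rfl
      intro A _
      rw [ind_lf]
    rw [muS_eq, WithDensityᵥEq.congr_ae h2, (sum_density G _).2]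
  · intro c hc A hA
    have hpr : ∀ B ∈ G, S.filter (fun s => lf s ∈ B.map lf) = B := by
      intro B hB
      have hBS := ((hmemG B).1 hB).1
      ext s
      rw [Finset.mem_filter]
      constructor
      · rintro ⟨-, hs⟩
        exact (Finset.mem_map' lf).1 hs
      · intro hs
        exact ⟨hBS hs, (Finset.mem_map' lf).2 hs⟩
    have hgen := gen_of_ae hG1 (fun C => c (S.filter (fun s => lf s ∈ C))) (by
      filter_upwards [hc] with x hx
      obtain ⟨z, hz⟩ := hx
      refine ⟨z, ?_⟩
      rw [← hz, hsumW]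
      apply Finset.sum_congr rfl
      intro B hB
      rw [ind_lf, hpr B hB])
    obtain ⟨z, hz⟩ := hG3 _ hgen (A.map lf) ((hmemG A).1 hA).2
    refine ⟨z, ?_⟩
    simp only [hpr A hA] at hz
    exact hz

theorem mem_span_image {R : Type} [Ring R] [Module R (SignedMeasure (E d))]
    {G : Finset (Finset (E d))} {x : SignedMeasure (E d)}
    (hx : x ∈ Submodule.span R (muS '' (G : Set (Finset (E d))))) :
    ∃ c : Finset (E d) → R, x = ∑ A ∈ G, c A • muS A := by
  classical
  induction hx using Submodule.span_induction with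
  | mem x h =>
    obtain ⟨A, hA, rfl⟩ := h
    refine ⟨fun B => if B = A then 1 else 0, ?_⟩
    rw [Finset.sum_eq_single_of_mem A hA]
    · simp
    · intro B _ hB
      simp only [if_neg hB, zero_smul]
  | zero => exact ⟨fun _ => 0, by simp⟩
  | add x y _ _ hx hy =>
    obtain ⟨c, rfl⟩ := hx
    obtain ⟨c', rfl⟩ := hy
    refine ⟨fun A => c A + c' A, ?_⟩
    rw [← Finset.sum_add_distrib]
    apply Finset.sum_congr rfl
    intro A _
    rw [add_smul]
  | smul a x _ hx =>
    obtain ⟨c, rfl⟩ := hx
    refine ⟨fun A => a * c A, ?_⟩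
    rw [Finset.smul_sum]
    apply Finset.sum_congr rfl
    intro A _
    rw [mul_smul]

theorem main (S : Finset (E d)) :
    ∃ G : Finset (Finset (E d)), IsSimplexBasis S G ∧
      (∀ B, IsSimplexIn S B → muS B ∈ Lambda G) ∧
      ∀ P : Set (E d), IsGeneralizedPolytope P → mu P ∈ MDelta S → mu P ∈ Lambda G := by
  classical
  obtain ⟨G, hG1, hG2, hG3⟩ := exists_basis S
  have hreal : ∀ B, IsSimplexIn S B →
      muS B ∈ Submodule.span ℝ (muS '' (G : Set (Finset (E d)))) := by
    intro B hB
    obtain ⟨n, hn⟩ := hG2 B hB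
    rw [hn]
    apply Submodule.sum_mem
    intro A hA
    apply Submodule.smul_mem
    exact Submodule.subset_span ⟨A, hA, rfl⟩
  have hspan : Submodule.span ℝ (muS '' (G : Set (Finset (E d)))) = MDelta S := by
    apply le_antisymm
    · apply Submodule.span_mono
      rintro _ ⟨B, hB, rfl⟩
      exact ⟨B, hG1 B hB, rfl⟩
    · unfold MDelta
      rw [Submodule.span_le]
      rintro _ ⟨B, hB, rfl⟩
      exact hreal B hB
  -- integrality of coefficients from integrality of densities
  have hint : ∀ (c : Finset (E d) → ℝ) (f : E d → ℝ), Integrable f (volume : Measure (E d)) →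
      (∀ x, ∃ z : ℤ, f x = z) →
      (volume : Measure (E d)).withDensityᵥ f = ∑ A ∈ G, c A • muS A →
      ∀ A ∈ G, ∃ z : ℤ, c A = z := by
    intro c f hf hz heq
    apply hG3
    have h1 := sum_density G c
    rw [← h1.2] at heq
    have h2 := hf.ae_eq_of_withDensityᵥ_eq h1.1 heq
    filter_upwards [h2] with x hx
    rw [← hx]
    exact hz x
  refine ⟨G, ⟨hG1, ?_, hspan⟩, ?_, ?_⟩
  · rw [Fintype.linearIndependent_iff]
    intro g hg A
    by_contra hne
    set c : Finset (E d) → ℝ := fun B => if h : B ∈ G then g ⟨B, h⟩ / (2 * g A) else 0 with hc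
    have hzero : (0 : SignedMeasure (E d)) = ∑ B ∈ G, c B • muS B := by
      rw [← Finset.sum_attach G (fun B => c B • muS B), ← Finset.univ_eq_attach]
      have h1 : ∑ B : G, c (B : Finset (E d)) • muS (B : Finset (E d)) =
          (2 * g A)⁻¹ • ∑ B : G, g B • muS (B : Finset (E d)) := by
        rw [Finset.smul_sum]
        apply Finset.sum_congr rfl
        intro B _
        rw [smul_smul]
        congr 1
        rw [hc]
        simp only [B.2, dif_pos]
        rw [div_eq_inv_mul]
      rw [h1, hg, smul_zero]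
    obtain ⟨z, hz⟩ := hint c 0 (integrable_zero _ _ _) (fun x => ⟨0, by simp⟩)
      (by rw [withDensityᵥ_zero]; exact hzero) A A.2
    rw [hc] at hz
    simp only [A.2, dif_pos] at hz
    have h2 : (1 : ℝ) = 2 * z := by
      rw [← hz]
      field_simp
    have h3 : (1 : ℤ) = 2 * z := by exact_mod_cast h2
    omega
  · intro B hB
    obtain ⟨n, hn⟩ := hG2 B hB
    rw [hn]
    apply Submodule.sum_mem
    intro A hA
    rw [Int.cast_smul_eq_zsmul ℝ (n A) (muS A)]
    apply Submodule.smul_mem
    exact Submodule.subset_span ⟨A, hA, rfl⟩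
  · intro P hP hPM
    rw [← hspan] at hPM
    obtain ⟨c, hc⟩ := mem_span_image hPM
    have h1 := hint c _ (integrable_poly hP) (fun x => by
      by_cases hx : x ∈ P
      · exact ⟨1, by simp [hx]⟩
      · exact ⟨0, by simp [hx]⟩) hc
    rw [hc]
    apply Submodule.sum_mem
    intro A hA
    obtain ⟨z, hz⟩ := h1 A hA
    rw [hz, Int.cast_smul_eq_zsmul ℝ z (muS A)]
    apply Submodule.smul_mem
    exact Submodule.subset_span ⟨A, hA, rfl⟩

/-- For every finite set `S` in `ℝ^d`, some basis of `MDelta S` consisting of simplex measures spans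
the same lattice as all simplex measures, and this lattice contains the measure `mu P` of every
generalized polytope `P` with `mu P ∈ MDelta S` (in particular when `S` is the vertex set
of `P`). -/
theorem result (d : ℕ) (S : Finset (E d)) :
    (∃ G : Finset (Finset (E d)), IsSimplexBasis S G ∧ Lambda G = LambdaAll S) ∧
      ∀ P : Set (E d), IsGeneralizedPolytope P → mu P ∈ MDelta S → mu P ∈ LambdaAll S := by
  obtain ⟨G, hG, hall, hP⟩ := main S
  have heq : Lambda G = LambdaAll S := by
    apply le_antisymm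
    · apply Submodule.span_mono
      rintro _ ⟨B, hB, rfl⟩
      exact ⟨B, hG.1 B hB, rfl⟩
    · unfold LambdaAll
      rw [Submodule.span_le]
      rintro _ ⟨B, hB, rfl⟩
      exact hall B hB
  exact ⟨⟨G, hG, heq⟩, fun P h1 h2 => heq ▸ hP P h1 h2⟩

end Pool.Agent.Results.MP_8bc176_co.IntegralBasis
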